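import Pool.Agent.W136.IW.Ode
import Pool.Agent.W932.IW.En
import Pool.Agent.W182.IW.Comp
import Pool.Agent.W508.IW.Lim
import Pool.Agent.W397.IW.Leq
import Pool.Agent.W582.IW.Str
import Pool.Agent.W389.IW.Tail
import Pool.Agent.W360.IW.Conc
import Pool.Agent.W411.IW.Pars
import Pool.Agent.W116.IW.Ibp
import Pool.Agent.W411.IW.Chain
import Pool.Agent.W116.IW.Null
import Pool.Agent.W573.IW.Flow
import Pool.Agent.W479.IW.HDiv
import Pool.Agent.W374.IW.HaHb
import Pool.Agent.W932.IW.Reg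
import Pool.Agent.W357.IW.Rot
import Pool.Agent.W707.IW.Alg
import Pool.Agent.W308.IW.Bnd
import Pool.Agent.W374.IW.Pc
import Pool.Agent.W411.IW.Qt
import Pool.Agent.W581.IW.Qw
import Pool.Agent.W581.IW.Fk
import Pool.Agent.W769.IW.Qk
import Pool.Agent.W239.IW.Wk
import Pool.Agent.W737.IW.Qp
import Pool.Agent.W74.IW.Plane
import Pool.Agent.W459.IW.Ptw
import Pool.Agent.W411.IW.Iw
import Pool.Agent.W883.IW.Pv
import Pool.Agent.W191.IW.Pvc
import Pool.Agent.W191.IW.Ub
import Pool.Agent.W57.IW.Lb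
import Pool.Agent.W439.IW.Dual

/-! Project IW (helper488): assembly of the closed theorems. -/

set_option autoImplicit false

namespace Pool.Agent.W735.IW.Asm

open Pool.Agent.W488.IW

theorem en : S_EN := Pool.Agent.W932.IW.En.main

theorem comp : S_COMP := Pool.Agent.W182.IW.Comp.main en

theorem lim : S_LIM := Pool.Agent.W508.IW.Lim.main en

theorem leq : S_LEQ := Pool.Agent.W397.IW.Leq.main en lim

theorem str : S_STR := Pool.Agent.W582.IW.Str.main en lim leq

theorem tail : S_TAIL := Pool.Agent.W389.IW.Tail.main en comp lim str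

theorem chain : S_CHAIN := Pool.Agent.W411.IW.Chain.main Pool.Agent.W116.IW.Ibp.main

theorem flow : S_FLOW := Pool.Agent.W573.IW.Flow.main Pool.Agent.W136.IW.Ode.main en tail
  Pool.Agent.W360.IW.Conc.main chain Pool.Agent.W411.IW.Pars.main

theorem pc : S_PC := Pool.Agent.W374.IW.Pc.main Pool.Agent.W479.IW.HDiv.main
  Pool.Agent.W374.IW.HaHb.mainA Pool.Agent.W374.IW.HaHb.mainB Pool.Agent.W357.IW.Rot.main
  Pool.Agent.W707.IW.Alg.main Pool.Agent.W308.IW.Bnd.main

theorem qt : S_QT := Pool.Agent.W411.IW.Qt.main pc Pool.Agent.W932.IW.Reg.main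
  Pool.Agent.W116.IW.Null.main flow

theorem qw : S_QW := Pool.Agent.W581.IW.Qw.main qt

theorem qk : S_QK := Pool.Agent.W769.IW.Qk.main qw Pool.Agent.W581.IW.Fk.main

theorem qp : S_QP := Pool.Agent.W737.IW.Qp.main qk Pool.Agent.W239.IW.Wk.main

theorem plane : S_PLANE := Pool.Agent.W74.IW.Plane.main

/-- **The sharp inequality** for all `p ≥ 219/100`. -/
theorem iw : S_IW (219 / 100) := Pool.Agent.W411.IW.Iw.main (219 / 100) (by norm_num) qp plane
  Pool.Agent.W459.IW.Ptw.main219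

theorem pv : S_PV := Pool.Agent.W883.IW.Pv.main

theorem pvc : S_PVC := Pool.Agent.W191.IW.Pvc.main pv

theorem ub_imp : S_UB (219 / 100) := Pool.Agent.W191.IW.Ub.main (219 / 100) pv

open MeasureTheory in
/-- the upper bound `p - 1` for the principal value transform, `p ≥ 219/100` -/
theorem ub : ∀ p : ℝ, 219 / 100 ≤ p → ∀ g : ℂ → ℂ,
    ContDiff ℝ (⊤ : ℕ∞) g → HasCompactSupport g → ∀ Tg : ℂ → ℂ, IsPV g Tg →
    eLpNorm Tg (ENNReal.ofReal p) (volume : Measure ℂ)
      ≤ ENNReal.ofReal (p - 1) * eLpNorm g (ENNReal.ofReal p) (volume : Measure ℂ) :=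
  ub_imp iw (by norm_num)

theorem lb : S_LB := Pool.Agent.W57.IW.Lb.main

theorem dual_imp : S_DUAL (219 / 100) := Pool.Agent.W439.IW.Dual.main (219 / 100) pv

/-- the dual range `1 < p ≤ 219/119` -/
theorem dual : ∀ p : ℝ, 1 < p → p ≤ 219 / 100 / (219 / 100 - 1) →
    ∀ f : ℂ → ℂ, ContDiff ℝ 1 f → HasCompactSupport f →
    ∫ z, ‖dzb f z‖ ^ p ≤ (1 / (p - 1)) ^ p * ∫ z, ‖dz f z‖ ^ p :=
  dual_imp iw (by norm_num)

end Pool.Agent.W735.IW.Asm
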